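import Pool.Agent.Helper5.FRC.Defs

/-!
FRC-LIFT (MP_79b960_co): removing two pairs of points from a pairing, one pair at a time.
-/

set_option autoImplicit false

namespace Pool.Agent.Helper36.FRC.LIFT

open Finset Pool.Agent.Helper5.FRC

section

variable {V : Type} [DecidableEq V]

/-- the pairing after the removal of the pair `z, w` -/
def rem (t : V → V) (z w : V) (x : V) : V :=
  if t x = z then t w else if t x = w then t z else t x

lemma rem1 (t : V → V) (z w x : V) (h : t x = z) : rem t z w x = t w := by
  unfold rem; rw [if_pos h]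

lemma rem2 (t : V → V) (z w x : V) (h1 : t x ≠ z) (h2 : t x = w) : rem t z w x = t z := by
  unfold rem; rw [if_neg h1, if_pos h2]

lemma rem3 (t : V → V) (z w x : V) (h1 : t x ≠ z) (h2 : t x ≠ w) : rem t z w x = t x := by
  unfold rem; rw [if_neg h1, if_neg h2]

lemma prg_rem (A : Finset V) (t : V → V) (z w : V) (hz : z ∈ A) (hw : w ∈ A) (hne : z ≠ w)
    (ht : Prg A t) : Prg (A \ {z, w}) (rem t z w) := by
  intro x hx
  rw [mem_sdiff, mem_insert, mem_singleton, not_or] at hx
  obtain ⟨hxA, hxz, hxw⟩ := hx
  obtain ⟨h1, h2, h3⟩ := ht x hxA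
  obtain ⟨z1, z2, z3⟩ := ht z hz
  obtain ⟨w1, w2, w3⟩ := ht w hw
  rw [mem_sdiff, mem_insert, mem_singleton, not_or]
  by_cases e1 : t x = z
  · have hr : rem t z w x = t w := by unfold rem; rw [if_pos e1]
    rw [hr]
    have hzx : t z = x := by rw [← e1]; exact h2
    refine ⟨⟨w1, ?_, w3⟩, ?_, ?_⟩
    · intro h
      apply hxw
      rw [← hzx, ← h, w2]
    · unfold rem
      rw [w2, if_neg (Ne.symm hne), if_pos rfl, hzx]
    · intro h
      apply hne
      rw [← e1, ← h, w2]
  · by_cases e2 : t x = w
    · have hr : rem t z w x = t z := by unfold rem; rw [if_neg e1, if_pos e2]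
      rw [hr]
      have hwx : t w = x := by rw [← e2]; exact h2
      refine ⟨⟨z1, z3, ?_⟩, ?_, ?_⟩
      · intro h
        apply hxz
        rw [← hwx, ← h, z2]
      · unfold rem
        rw [z2, if_pos rfl, hwx]
      · intro h
        apply hne
        rw [← e2, ← h, z2]
    · have hr : rem t z w x = t x := by unfold rem; rw [if_neg e1, if_neg e2]
      rw [hr]
      refine ⟨⟨h1, e1, e2⟩, ?_, h3⟩
      unfold rem
      rw [h2, if_neg hxz, if_neg hxw]

lemma dm_rem (A : Finset V) (t : V → V) (z w : V) (hz : z ∈ A) (hw : w ∈ A)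
    (ht : Prg A t) (K : Finset V) (hK : K ⊆ A \ {z, w}) :
    dm t (K ∪ ∅) = dm (rem t z w) K ∨ dm t (K ∪ {z, w}) = dm (rem t z w) K := by
  have hKA : ∀ x ∈ K, x ∈ A ∧ x ≠ z ∧ x ≠ w := by
    intro x hx
    have := hK hx
    rw [mem_sdiff, mem_insert, mem_singleton, not_or] at this
    exact this
  have hzK : z ∉ K := fun h => (hKA z h).2.1 rfl
  have hwK : w ∉ K := fun h => (hKA w h).2.2 rfl
  by_cases hc : t z ∈ K ∧ t w ∈ K
  · right
    unfold dm
    congr 1
    ext x
    simp only [mem_filter, mem_union, mem_insert, mem_singleton, not_or]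
    constructor
    · rintro ⟨hx | rfl | rfl, h1, h2, h3⟩
      · refine ⟨hx, ?_⟩
        unfold rem
        rw [if_neg h2, if_neg h3]
        exact h1
      · exact absurd hc.1 h1
      · exact absurd hc.2 h1
    · rintro ⟨hx, h1⟩
      have e1 : t x ≠ z := by
        intro e1
        unfold rem at h1
        rw [if_pos e1] at h1
        exact h1 hc.2
      have e2 : t x ≠ w := by
        intro e2
        unfold rem at h1
        rw [if_neg e1, if_pos e2] at h1
        exact h1 hc.1
      unfold rem at h1
      rw [if_neg e1, if_neg e2] at h1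
      exact ⟨Or.inl hx, h1, e1, e2⟩
  · left
    rw [union_empty]
    unfold dm
    congr 1
    apply filter_congr
    intro x hx
    obtain ⟨hxA, -, -⟩ := hKA x hx
    have h2 := (ht x hxA).2.1
    by_cases e1 : t x = z
    · have hzx : t z = x := by rw [← e1]; exact h2
      have hw' : t w ∉ K := fun h => hc ⟨by rw [hzx]; exact hx, h⟩
      unfold rem
      rw [if_pos e1, e1]
      exact ⟨fun _ => hw', fun _ => hzK⟩
    · by_cases e2 : t x = w
      · have hwx : t w = x := by rw [← e2]; exact h2
        have hz' : t z ∉ K := fun h => hc ⟨h, by rw [hwx]; exact hx⟩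
        unfold rem
        rw [if_neg e1, if_pos e2, e2]
        exact ⟨fun _ => hz', fun _ => hwK⟩
      · unfold rem
        rw [if_neg e1, if_neg e2]

end

theorem t : LiftStmt := by
  intro V _ _ A Z t p hA hZA hZ4 hp
  -- `Z = {a, p a, c, p c}`
  obtain ⟨a, ha⟩ : Z.Nonempty := by rw [← card_pos]; omega
  obtain ⟨ha1, ha2, ha3⟩ := hp a ha
  have hcard2 : ({a, p a} : Finset V).card = 2 := card_pair (Ne.symm ha3)
  obtain ⟨c, hc⟩ : (Z \ {a, p a}).Nonempty := by
    rw [← card_pos]
    have h1 := le_card_sdiff ({a, p a} : Finset V) Z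
    omega
  rw [mem_sdiff, mem_insert, mem_singleton, not_or] at hc
  obtain ⟨hcZ, hca, hcb⟩ := hc
  obtain ⟨hc1, hc2, hc3⟩ := hp c hcZ
  obtain ⟨b, hb⟩ : ∃ b, b = p a := ⟨_, rfl⟩
  obtain ⟨d, hd⟩ : ∃ d, d = p c := ⟨_, rfl⟩
  rw [← hb] at ha1 ha2 ha3 hcb
  rw [← hd] at hc1 hc2 hc3
  have hda : d ≠ a := by
    intro h
    apply hcb
    rw [← hc2, h, hb]
  have hdb : d ≠ b := by
    intro h
    apply hca
    rw [← hc2, h, ha2]
  have hZeq : Z = {a, b} ∪ {c, d} := by
    symm
    apply eq_of_subset_of_card_le
    · intro x hx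
      rw [mem_union, mem_insert, mem_singleton, mem_insert, mem_singleton] at hx
      rcases hx with (rfl | rfl) | (rfl | rfl)
      · exact ha
      · exact ha1
      · exact hcZ
      · exact hc1
    · rw [hZ4, card_union_of_disjoint, card_pair (Ne.symm ha3), card_pair (Ne.symm hc3)]
      rw [disjoint_left]
      intro x hx hx'
      rw [mem_insert, mem_singleton] at hx hx'
      rcases hx with rfl | rfl
      · rcases hx' with h | h
        · exact hca h.symm
        · exact hda h.symm
      · rcases hx' with h | h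
        · exact hcb h.symm
        · exact hdb h.symm
  have memZ : ∀ x, x ∈ Z ↔ (x = a ∨ x = b) ∨ (x = c ∨ x = d) := by
    intro x
    rw [hZeq, mem_union, mem_insert, mem_singleton, mem_insert, mem_singleton]
  have haA := hZA ha
  have hbA := hZA ha1
  have hcA := hZA hcZ
  have hdA := hZA hc1
  have hpa : p a = b := hb.symm
  have hpc : p c = d := hd.symm
  -- the two steps
  obtain ⟨A1, hA1⟩ : ∃ A1, A1 = A \ {c, d} := ⟨_, rfl⟩
  have hP1 : Prg A1 (rem t c d) := by
    rw [hA1]; exact prg_rem A t c d hcA hdA (Ne.symm hc3) hA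
  have haA1 : a ∈ A1 := by
    rw [hA1, mem_sdiff, mem_insert, mem_singleton, not_or]
    exact ⟨haA, Ne.symm hca, Ne.symm hda⟩
  have hbA1 : b ∈ A1 := by
    rw [hA1, mem_sdiff, mem_insert, mem_singleton, not_or]
    exact ⟨hbA, Ne.symm hcb, Ne.symm hdb⟩
  have hAZ : A \ Z = A1 \ {a, b} := by
    rw [hA1, hZeq]
    ext x
    simp only [mem_sdiff, mem_union, mem_insert, mem_singleton]
    tauto
  have hP2 : Prg (A \ Z) (rem (rem t c d) a b) := by
    rw [hAZ]; exact prg_rem A1 (rem t c d) a b haA1 hbA1 (Ne.symm ha3) hP1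
  refine ⟨rem (rem t c d) a b, hP2, ?_, ?_⟩
  · intro x hx
    have hxx := hP2 x hx
    rw [mem_sdiff] at hx
    obtain ⟨hxA, hxZ⟩ := hx
    obtain ⟨x1, x2, x3⟩ := hA x hxA
    obtain ⟨a1, a2, a3⟩ := hA a haA
    obtain ⟨b1, b2, b3⟩ := hA b hbA
    obtain ⟨c1, c2, c3⟩ := hA c hcA
    obtain ⟨d1, d2, d3⟩ := hA d hdA
    rw [memZ] at hxZ
    push Not at hxZ
    obtain ⟨⟨n1, n2⟩, n3, n4⟩ := hxZ
    by_cases hcase : t x ∈ Z
    · right
      rw [memZ] at hcase
      rcases hcase with (e | e) | (e | e)
      · -- `t x = a`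
        have hax : t a = x := by rw [← e]; exact x2
        have r1 : rem t c d x = a := by
          rw [rem3 t c d x (by rw [e]; exact Ne.symm hca) (by rw [e]; exact Ne.symm hda), e]
        rw [rem1 (rem t c d) a b x r1, e, hpa]
        by_cases f1 : t b = c
        · right
          rw [rem1 t c d b f1, f1, hpc]
          exact ⟨ha, hcZ, rfl⟩
        · by_cases f2 : t b = d
          · right
            rw [rem2 t c d b f1 f2, f2, hc2]
            exact ⟨ha, hc1, rfl⟩
          · left
            rw [rem3 t c d b f1 f2, memZ, memZ]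
            refine ⟨Or.inl (Or.inl rfl), ?_, rfl⟩
            push Not
            refine ⟨⟨?_, b3⟩, f1, f2⟩
            intro h
            apply n2
            rw [← hax, ← h, b2]
      · -- `t x = b`
        have hbx : t b = x := by rw [← e]; exact x2
        have r1 : rem t c d x = b := by
          rw [rem3 t c d x (by rw [e]; exact Ne.symm hcb) (by rw [e]; exact Ne.symm hdb), e]
        rw [rem2 (rem t c d) a b x (by rw [r1]; exact ha3) r1, e, ha2]
        by_cases f1 : t a = c
        · right
          rw [rem1 t c d a f1, f1, hpc]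
          exact ⟨ha1, hcZ, rfl⟩
        · by_cases f2 : t a = d
          · right
            rw [rem2 t c d a f1 f2, f2, hc2]
            exact ⟨ha1, hc1, rfl⟩
          · left
            rw [rem3 t c d a f1 f2, memZ, memZ]
            refine ⟨Or.inl (Or.inr rfl), ?_, rfl⟩
            push Not
            refine ⟨⟨a3, ?_⟩, f1, f2⟩
            intro h
            apply n1
            rw [← hbx, ← h, a2]
      · -- `t x = c`
        have hcx : t c = x := by rw [← e]; exact x2
        have r1 : rem t c d x = t d := rem1 t c d x e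
        rw [e, hpc]
        by_cases f1 : t d = a
        · right
          have g1 : t b ≠ c := fun h => n2 (by rw [← hcx, ← h, b2])
          have g2 : t b ≠ d := fun h => ha3 (by rw [← f1, ← h, b2])
          rw [rem1 (rem t c d) a b x (by rw [r1]; exact f1), f1, hpa, rem3 t c d b g1 g2]
          exact ⟨hcZ, ha, rfl⟩
        · by_cases f2 : t d = b
          · right
            have g1 : t a ≠ c := fun h => n1 (by rw [← hcx, ← h, a2])
            have g2 : t a ≠ d := fun h => ha3 (by rw [← f2, ← h, a2])
            rw [rem2 (rem t c d) a b x (by rw [r1]; exact f1) (by rw [r1]; exact f2), f2, ha2,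
              rem3 t c d a g1 g2]
            exact ⟨hcZ, ha1, rfl⟩
          · left
            rw [rem3 (rem t c d) a b x (by rw [r1]; exact f1) (by rw [r1]; exact f2), r1, memZ,
              memZ]
            refine ⟨Or.inr (Or.inl rfl), ?_, rfl⟩
            push Not
            refine ⟨⟨f1, f2⟩, ?_, d3⟩
            intro h
            apply n4
            rw [← hcx, ← h, d2]
      · -- `t x = d`
        have hdx : t d = x := by rw [← e]; exact x2
        have r1 : rem t c d x = t c := rem2 t c d x (by rw [e]; exact hc3) e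
        rw [e, hc2]
        by_cases f1 : t c = a
        · right
          have g1 : t b ≠ d := fun h => n2 (by rw [← hdx, ← h, b2])
          have g2 : t b ≠ c := fun h => ha3 (by rw [← f1, ← h, b2])
          rw [rem1 (rem t c d) a b x (by rw [r1]; exact f1), f1, hpa, rem3 t c d b g2 g1]
          exact ⟨hc1, ha, rfl⟩
        · by_cases f2 : t c = b
          · right
            have g1 : t a ≠ d := fun h => n1 (by rw [← hdx, ← h, a2])
            have g2 : t a ≠ c := fun h => ha3 (by rw [← f2, ← h, a2])
            rw [rem2 (rem t c d) a b x (by rw [r1]; exact f1) (by rw [r1]; exact f2), f2, ha2,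
              rem3 t c d a g2 g1]
            exact ⟨hc1, ha1, rfl⟩
          · left
            rw [rem3 (rem t c d) a b x (by rw [r1]; exact f1) (by rw [r1]; exact f2), r1, memZ,
              memZ]
            refine ⟨Or.inr (Or.inr rfl), ?_, rfl⟩
            push Not
            refine ⟨⟨f1, f2⟩, c3, ?_⟩
            intro h
            apply n3
            rw [← hdx, ← h, c2]
    · left
      refine ⟨hcase, ?_⟩
      rw [memZ] at hcase
      push Not at hcase
      unfold rem
      rw [if_neg hcase.2.1, if_neg hcase.2.2, if_neg hcase.1.1, if_neg hcase.1.2]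
  · intro K hK
    have hK2 : K ⊆ A1 \ {a, b} := by rw [← hAZ]; exact hK
    have key : ∀ W1, W1 ⊆ ({a, b} : Finset V) → K ∪ W1 ⊆ A \ {c, d} := by
      intro W1 hW1
      rw [← hA1]
      intro x hx
      rw [mem_union] at hx
      rcases hx with hx | hx
      · exact (mem_sdiff.1 (hK2 hx)).1
      · have := hW1 hx
        rw [mem_insert, mem_singleton] at this
        rcases this with rfl | rfl
        · exact haA1
        · exact hbA1
    have step : ∀ W1, W1 ⊆ ({a, b} : Finset V) → (∀ z ∈ W1, p z ∈ W1) →
        dm (rem t c d) (K ∪ W1) = dm (rem (rem t c d) a b) K →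
        ∃ W ⊆ Z, (∀ z ∈ W, p z ∈ W) ∧ dm t (K ∪ W) = dm (rem (rem t c d) a b) K := by
      intro W1 hW1 hcl h1
      have hW1Z : W1 ⊆ Z := by
        rw [hZeq]
        exact hW1.trans subset_union_left
      rcases dm_rem A t c d hcA hdA hA (K ∪ W1) (key W1 hW1) with h2 | h2
      · refine ⟨W1, hW1Z, hcl, ?_⟩
        rw [union_empty] at h2
        rw [h2, h1]
      · refine ⟨W1 ∪ {c, d}, ?_, ?_, ?_⟩
        · apply union_subset hW1Z
          rw [hZeq]
          exact subset_union_right
        · intro z hz
          rw [mem_union] at hz ⊢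
          rcases hz with hz | hz
          · exact Or.inl (hcl z hz)
          · right
            rw [mem_insert, mem_singleton] at hz ⊢
            rcases hz with rfl | rfl
            · right; exact hpc
            · left; exact hc2
        · rw [← union_assoc, h2, h1]
    rcases dm_rem A1 (rem t c d) a b haA1 hbA1 hP1 K hK2 with h1 | h1
    · exact step ∅ (empty_subset _) (by simp) h1
    · refine step {a, b} (Subset.refl _) ?_ h1
      intro z hz
      rw [mem_insert, mem_singleton] at hz ⊢
      rcases hz with rfl | rfl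
      · right; exact hpa
      · left; exact ha2

end Pool.Agent.Helper36.FRC.LIFT
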